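import Mathlib
import Pool.Agent.H66.LocalGlobal

/-!
# Finite obstruction sets for the mixed page number of ordered graphs

We prove that there are finite sets `P 1, P 2, ...` of patterns and a function `f` such that for
every `k` and every ordered graph `G`: if `G` avoids every pattern in `P k` then `mn G < f k`, and if
`G` contains some pattern in `P k` then `mn G ≥ k`.

The pattern set `P k` consists of all ordered graphs with boundedly many vertices and mixed page
number at least `k`. The combinatorial core (`Pool.Agent.H66.LocalGlobal`) is a local-to-global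
theorem, whose proof also needs the theorem of Gyárfás that circle graphs are `χ`-bounded
(`Pool.Agent.H66.CircleChi`, proved there from scratch).
-/

set_option autoImplicit false

namespace Pool.Agent.Results.MP_42bdc2_co.FiniteObstructions

open Pool.Agent.H66.Circle

section defs

variable {V : Type} [LinearOrder V]

/-- The edges of an ordered graph, as pairs `(u, v)` with `u < v`. -/
def edges (G : SimpleGraph V) : Set (V × V) := {e | e.1 < e.2 ∧ G.Adj e.1 e.2}

/-- `e = uv` and `f = xy` (with `u < v`, `x < y`) cross: `u < x < v < y`. -/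
def Cross (e f : V × V) : Prop := e.1 < f.1 ∧ f.1 < e.2 ∧ e.2 < f.2

/-- `e = uv` and `f = xy` (with `u < v`, `x < y`) nest: `u < x < y < v`. -/
def Nest (e f : V × V) : Prop := e.1 < f.1 ∧ f.1 < f.2 ∧ f.2 < e.2

/-- A stack: no two edges cross. -/
def IsStack (X : Set (V × V)) : Prop := ∀ e ∈ X, ∀ f ∈ X, ¬ Cross e f

/-- A queue: no two edges nest. -/
def IsQueue (X : Set (V × V)) : Prop := ∀ e ∈ X, ∀ f ∈ X, ¬ Nest e f

/-- The edge set of `G` splits into (at most) `k` parts, each a stack or a queue. -/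
def MixedLayout (G : SimpleGraph V) (k : ℕ) : Prop :=
  ∃ X : Fin k → Set (V × V), (⋃ i, X i) = edges G ∧ (∀ i j, i ≠ j → Disjoint (X i) (X j)) ∧
    ∀ i, IsStack (X i) ∨ IsQueue (X i)

/-- The mixed page number. -/
noncomputable def mn (G : SimpleGraph V) : ℕ := sInf {k | MixedLayout G k}

/-- Patterns: ordered graphs on `{0, ..., m - 1}` with the natural order, for some `m`. -/
abbrev Pattern : Type := Σ m : ℕ, SimpleGraph (Fin m)

/-- `G` contains the pattern `P` as an ordered (not necessarily induced) subgraph. -/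
def Contains (G : SimpleGraph V) (P : Pattern) : Prop :=
  ∃ φ : Fin P.1 ↪o V, ∀ a b, P.2.Adj a b → G.Adj (φ a) (φ b)

end defs

/-- Page colourings of sets of pairs of natural numbers. -/
def PC (W : Finset (ℕ × ℕ)) (k : ℕ) : Prop :=
  ∃ c : ℕ × ℕ → ℕ, (∀ p ∈ W, c p < k) ∧
    ∀ i, (∀ p ∈ W, ∀ q ∈ W, c p = i → c q = i → ¬ cr p q) ∨
      (∀ p ∈ W, ∀ q ∈ W, c p = i → c q = i → ¬ ns p q)

section translate

variable {V : Type} [LinearOrder V]

lemma pc_of_layout (H : SimpleGraph V) (τ : V → ℕ) (hτ : StrictMono τ) (W : Finset (ℕ × ℕ))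
    (hW : ∀ p ∈ W, ∃ e ∈ edges H, (τ e.1, τ e.2) = p) (k : ℕ) (h : MixedLayout H k) :
    PC W k := by
  classical
  obtain ⟨X, hX1, hX2, hX3⟩ := h
  have hch : ∀ p : ℕ × ℕ, ∃ i : ℕ, p ∈ W →
      ∃ hi : i < k, ∃ e ∈ X ⟨i, hi⟩, (τ e.1, τ e.2) = p := by
    intro p
    by_cases hp : p ∈ W
    · obtain ⟨e, he, hep⟩ := hW p hp
      rw [← hX1, Set.mem_iUnion] at he
      obtain ⟨i, hi⟩ := he
      exact ⟨i.1, fun _ => ⟨i.2, e, hi, hep⟩⟩
    · exact ⟨0, fun h => absurd h hp⟩
  choose c hc using hch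
  refine ⟨c, fun p hp => (hc p hp).1, ?_⟩
  intro i
  by_cases hi : i < k
  · have hmem : ∀ p ∈ W, c p = i → ∃ e ∈ X ⟨i, hi⟩, (τ e.1, τ e.2) = p := by
      intro p hp hpi
      obtain ⟨h1, e, he, hep⟩ := hc p hp
      subst hpi
      exact ⟨e, he, hep⟩
    rcases hX3 ⟨i, hi⟩ with hst | hq
    · left
      intro p hp q hq hpi hqi hcr
      obtain ⟨e, he, rfl⟩ := hmem p hp hpi
      obtain ⟨f, hf, rfl⟩ := hmem q hq hqi
      refine hst e he f hf ?_
      unfold cr at hcr
      exact ⟨hτ.lt_iff_lt.mp hcr.1, hτ.lt_iff_lt.mp hcr.2.1, hτ.lt_iff_lt.mp hcr.2.2⟩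
    · right
      intro p hp q hq' hpi hqi hcr
      obtain ⟨e, he, rfl⟩ := hmem p hp hpi
      obtain ⟨f, hf, rfl⟩ := hmem q hq' hqi
      refine hq e he f hf ?_
      unfold ns at hcr
      have hfe : f ∈ edges H := by
        rw [← hX1]
        exact Set.mem_iUnion.mpr ⟨_, hf⟩
      exact ⟨hτ.lt_iff_lt.mp hcr.1, hfe.1, hτ.lt_iff_lt.mp hcr.2⟩
  · left
    intro p hp q _ hpi _ _
    have := (hc p hp).1
    omega

lemma layout_of_pc (G : SimpleGraph V) (ν : V → ℕ) (hν : StrictMono ν) (E : Finset (ℕ × ℕ))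
    (hE : ∀ e ∈ edges G, (ν e.1, ν e.2) ∈ E) (k : ℕ) (h : PC E k) : MixedLayout G k := by
  obtain ⟨c, hc1, hc2⟩ := h
  refine ⟨fun i => {e | e ∈ edges G ∧ c (ν e.1, ν e.2) = i.1}, ?_, ?_, ?_⟩
  · ext e
    rw [Set.mem_iUnion]
    constructor
    · rintro ⟨i, hi⟩
      exact hi.1
    · intro he
      exact ⟨⟨c (ν e.1, ν e.2), hc1 _ (hE e he)⟩, he, rfl⟩
  · intro i j hij
    rw [Set.disjoint_left]
    intro e he he'
    exact hij (Fin.ext (he.2.symm.trans he'.2))
  · intro i
    rcases hc2 i.1 with h | h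
    · left
      intro e he f hf hcr
      refine h _ (hE e he.1) _ (hE f hf.1) he.2 hf.2 ?_
      exact ⟨hν hcr.1, hν hcr.2.1, hν hcr.2.2⟩
    · right
      intro e he f hf hcr
      refine h _ (hE e he.1) _ (hE f hf.1) he.2 hf.2 ?_
      exact ⟨hν hcr.1, hν hcr.2.2⟩

lemma layout_mono (G : SimpleGraph V) {k k' : ℕ} (hk : k ≤ k') (h : MixedLayout G k) :
    MixedLayout G k' := by
  obtain ⟨X, hX1, hX2, hX3⟩ := h
  refine ⟨fun i => if hi : i.1 < k then X ⟨i.1, hi⟩ else ∅, ?_, ?_, ?_⟩
  · rw [← hX1]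
    ext e
    rw [Set.mem_iUnion, Set.mem_iUnion]
    constructor
    · rintro ⟨i, hi⟩
      by_cases hik : i.1 < k
      · rw [dif_pos hik] at hi
        exact ⟨_, hi⟩
      · rw [dif_neg hik] at hi
        exact absurd hi (Set.notMem_empty _)
    · rintro ⟨i, hi⟩
      refine ⟨⟨i.1, by omega⟩, ?_⟩
      rw [dif_pos i.2]
      exact hi
  · intro i j hij
    beta_reduce
    by_cases hi : i.1 < k
    · by_cases hj : j.1 < k
      · rw [dif_pos hi, dif_pos hj]
        refine hX2 _ _ ?_
        intro h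
        rw [Fin.mk.injEq] at h
        exact hij (Fin.ext h)
      · rw [dif_neg hj]
        exact disjoint_bot_right
    · rw [dif_neg hi]
      exact disjoint_bot_left
  · intro i
    beta_reduce
    by_cases hi : i.1 < k
    · rw [dif_pos hi]
      exact hX3 _
    · rw [dif_neg hi]
      left
      intro e he
      exact absurd he (Set.notMem_empty _)

/-- Monotonicity under containment. -/
lemma layout_of_contains (G : SimpleGraph V) (P : Pattern) (h : Contains G P) (k : ℕ)
    (hk : MixedLayout G k) : MixedLayout P.2 k := by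
  obtain ⟨φ, hφ⟩ := h
  obtain ⟨X, hX1, hX2, hX3⟩ := hk
  refine ⟨fun i => {e | e ∈ edges P.2 ∧ (φ e.1, φ e.2) ∈ X i}, ?_, ?_, ?_⟩
  · ext e
    rw [Set.mem_iUnion]
    constructor
    · rintro ⟨i, hi⟩
      exact hi.1
    · intro he
      have h1 : (φ e.1, φ e.2) ∈ edges G := ⟨φ.strictMono he.1, hφ _ _ he.2⟩
      rw [← hX1, Set.mem_iUnion] at h1
      obtain ⟨i, hi⟩ := h1
      exact ⟨i, he, hi⟩
  · intro i j hij
    rw [Set.disjoint_left]
    intro e he he'
    exact Set.disjoint_left.mp (hX2 i j hij) he.2 he'.2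
  · intro i
    rcases hX3 i with h | h
    · left
      intro e he f hf hcr
      exact h _ he.2 _ hf.2 ⟨φ.strictMono hcr.1, φ.strictMono hcr.2.1, φ.strictMono hcr.2.2⟩
    · right
      intro e he f hf hcr
      exact h _ he.2 _ hf.2 ⟨φ.strictMono hcr.1, φ.strictMono hcr.2.1, φ.strictMono hcr.2.2⟩

/-- Every finite ordered graph has a mixed layout. -/
lemma exists_layout [Fintype V] (G : SimpleGraph V) : ∃ k, MixedLayout G k := by
  classical
  set ν : V → ℕ := fun v => ((Fintype.orderIsoFinOfCardEq V rfl).symm v : ℕ) with hν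
  have hνm : StrictMono ν := fun a b hab => (Fintype.orderIsoFinOfCardEq V rfl).symm.strictMono hab
  set E : Finset (ℕ × ℕ) :=
    (Finset.univ : Finset (V × V)).image (fun e => (ν e.1, ν e.2)) with hE
  refine ⟨E.sup (fun p => Nat.pair p.1 p.2) + 1, layout_of_pc G ν hνm E ?_ _ ?_⟩
  · intro e _
    exact Finset.mem_image_of_mem _ (Finset.mem_univ e)
  · refine ⟨fun p => Nat.pair p.1 p.2, ?_, ?_⟩
    · intro p hp
      exact Nat.lt_succ_of_le (Finset.le_sup (f := fun p : ℕ × ℕ => Nat.pair p.1 p.2) hp)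
    · intro i
      left
      intro p _ q _ hpi hqi hcr
      have h1 : Nat.pair p.1 p.2 = Nat.pair q.1 q.2 := hpi.trans hqi.symm
      rw [Nat.pair_eq_pair] at h1
      unfold cr at hcr
      omega

lemma layout_mn [Fintype V] (G : SimpleGraph V) : MixedLayout G (mn G) :=
  Nat.sInf_mem (exists_layout G)

lemma mn_le [Fintype V] (G : SimpleGraph V) {k : ℕ} (h : MixedLayout G k) : mn G ≤ k :=
  Nat.sInf_le h

lemma mn_le_of_contains [Fintype V] (G : SimpleGraph V) (P : Pattern) (h : Contains G P) :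
    mn P.2 ≤ mn G :=
  mn_le _ (layout_of_contains G P h _ (layout_mn G))

end translate

/-- The patterns with at most `M` vertices and mixed page number at least `k`. -/
def smallPatterns (M k : ℕ) : Set Pattern := {P | P.1 ≤ M ∧ k ≤ mn P.2}

lemma smallPatterns_finite (M k : ℕ) : (smallPatterns M k).Finite := by
  have h : (⋃ m ∈ Finset.range (M + 1), Set.range (fun H : SimpleGraph (Fin m) =>
      (⟨m, H⟩ : Pattern))).Finite := by
    refine Set.Finite.biUnion (Finset.finite_toSet _) ?_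
    intro m _
    exact Set.finite_range _
  refine h.subset ?_
  rintro ⟨m, H⟩ hP
  rw [Set.mem_iUnion₂]
  exact ⟨m, Finset.mem_range.mpr (Nat.lt_succ_of_le hP.1), H, rfl⟩

/-- A bad small set of edges gives a pattern. -/
lemma exists_pattern {V : Type} [LinearOrder V] [Fintype V] (G : SimpleGraph V) (ν : V → ℕ)
    (hν : StrictMono ν) (W : Finset (ℕ × ℕ)) (hW : ∀ p ∈ W, ∃ e ∈ edges G, (ν e.1, ν e.2) = p)
    (k : ℕ) (hk : 1 ≤ k) (hbad : ¬ PC W (k - 1)) :
    ∃ P ∈ smallPatterns (2 * W.card) k, Contains G P := by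
  classical
  have hch : ∀ p : {p // p ∈ W}, ∃ e : V × V, e ∈ edges G ∧ (ν e.1, ν e.2) = p.1 := by
    rintro ⟨p, hp⟩
    obtain ⟨e, he, hep⟩ := hW p hp
    exact ⟨e, he, hep⟩
  choose ed hed1 hed2 using hch
  set T : Finset V := (Finset.univ : Finset {p // p ∈ W}).biUnion
    (fun p => {(ed p).1, (ed p).2}) with hT
  have hTc : T.card ≤ 2 * W.card := by
    have h1 : T.card ≤ (Finset.univ : Finset {p // p ∈ W}).card * 2 :=
      Finset.card_biUnion_le_card_mul _ _ _ (fun p _ => Finset.card_le_two)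
    rw [Finset.card_univ, Fintype.card_coe] at h1
    omega
  set φ : Fin T.card ↪o V := T.orderEmbOfFin rfl with hφ
  have hrange : ∀ v ∈ T, ∃ a, φ a = v := by
    intro v hv
    have : v ∈ Set.range φ := by
      rw [hφ, Finset.range_orderEmbOfFin]
      exact hv
    exact this
  let H : SimpleGraph (Fin T.card) :=
    { Adj := fun a b => (ν (φ a), ν (φ b)) ∈ W ∨ (ν (φ b), ν (φ a)) ∈ W
      symm := ⟨fun a b h => h.symm⟩
      loopless := ⟨fun a h => by
        have h' : (ν (φ a), ν (φ a)) ∈ W := h.elim id id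
        obtain ⟨e, he, hep⟩ := hW _ h'
        have h1 := hν he.1
        rw [Prod.mk.injEq] at hep
        omega⟩ }
  have hcont : Contains G ⟨T.card, H⟩ := by
    refine ⟨φ, ?_⟩
    intro a b hab
    have key : ∀ a b, (ν (φ a), ν (φ b)) ∈ W → G.Adj (φ a) (φ b) := by
      intro a b h
      obtain ⟨e, he, hep⟩ := hW _ h
      rw [Prod.mk.injEq] at hep
      have h1 := hν.injective hep.1
      have h2 := hν.injective hep.2
      rw [← h1, ← h2]
      exact he.2
    rcases hab with h | h
    · exact key a b h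
    · exact (key b a h).symm
  refine ⟨⟨T.card, H⟩, ⟨hTc, ?_⟩, hcont⟩
  by_contra hlt
  push Not at hlt
  apply hbad
  have hlay : MixedLayout H (k - 1) := layout_mono H (by
    have : mn H < k := hlt
    omega) (layout_mn H)
  refine pc_of_layout H (fun a => ν (φ a)) (fun a b hab => hν (φ.strictMono hab)) W ?_ _ hlay
  intro p hp
  have h1 := hed1 ⟨p, hp⟩
  have h2 := hed2 ⟨p, hp⟩
  obtain ⟨a, ha⟩ := hrange (ed ⟨p, hp⟩).1 (by
    rw [hT, Finset.mem_biUnion]
    exact ⟨⟨p, hp⟩, Finset.mem_univ _, Finset.mem_insert_self _ _⟩)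
  obtain ⟨b, hb⟩ := hrange (ed ⟨p, hp⟩).2 (by
    rw [hT, Finset.mem_biUnion]
    exact ⟨⟨p, hp⟩, Finset.mem_univ _, Finset.mem_insert_of_mem (Finset.mem_singleton_self _)⟩)
  have h3 : (ν (φ a), ν (φ b)) = p := by
    rw [ha, hb]; exact h2
  refine ⟨(a, b), ⟨?_, Or.inl (by rw [h3]; exact hp)⟩, h3⟩
  have h4 := h1.1
  rw [← ha, ← hb] at h4
  exact φ.lt_iff_lt.mp h4

/-- **Finite obstruction sets for the mixed page number.** There are finite sets
`P 1, P 2, ...` of patterns (ordered graphs with at least one edge) and a function `f` such that for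
every `k ≥ 1` and every finite ordered graph `G`: if `G` contains no pattern of `P k` then
`mn G < f k`, and if `G` contains some pattern of `P k` then `mn G ≥ k`. -/
theorem result : ∃ (P : ℕ → Set Pattern) (f : ℕ → ℕ), ∀ k : ℕ, 1 ≤ k →
    (P k).Finite ∧ (∀ H ∈ P k, (edges H.2).Nonempty) ∧
    ∀ (V : Type) [Fintype V] [LinearOrder V] (G : SimpleGraph V),
      ((∀ H ∈ P k, ¬ Contains G H) → mn G < f k) ∧
      ((∃ H ∈ P k, Contains G H) → k ≤ mn G) := by
  classical
  have hlg : ∀ k : ℕ, ∃ N F : ℕ, 1 ≤ k → ∀ E : Finset (ℕ × ℕ), (∀ p ∈ E, p.1 < p.2) →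
      (∀ W ⊆ E, W.card ≤ N → PC W (k - 1)) → PC E F := by
    intro k
    by_cases hk : 1 ≤ k
    · obtain ⟨N, F, h⟩ := local_global_pages k hk
      exact ⟨N, F, fun _ => h⟩
    · exact ⟨0, 0, fun h => absurd h hk⟩
  choose N F hNF using hlg
  refine ⟨fun k => smallPatterns (2 * N k) k, fun k => F k + 1, ?_⟩
  intro k hk
  refine ⟨smallPatterns_finite _ _, ?_, ?_⟩
  · intro H hH
    by_contra hne
    rw [Set.not_nonempty_iff_eq_empty] at hne
    have h0 : MixedLayout H.2 0 := by
      refine ⟨fun i => i.elim0, ?_, fun i => i.elim0, fun i => i.elim0⟩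
      rw [hne]
      exact Set.iUnion_of_empty _
    have h1 := mn_le H.2 h0
    have h2 := hH.2
    omega
  · intro V _ _ G
    constructor
    · intro hav
      set ν : V → ℕ := fun v => ((Fintype.orderIsoFinOfCardEq V rfl).symm v : ℕ) with hν
      have hνm : StrictMono ν :=
        fun a b hab => (Fintype.orderIsoFinOfCardEq V rfl).symm.strictMono hab
      set E : Finset (ℕ × ℕ) := ((Finset.univ : Finset (V × V)).filter
        (fun e => e ∈ edges G)).image (fun e => (ν e.1, ν e.2)) with hE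
      have hEmem : ∀ p ∈ E, ∃ e ∈ edges G, (ν e.1, ν e.2) = p := by
        intro p hp
        rw [hE, Finset.mem_image] at hp
        obtain ⟨e, he, hep⟩ := hp
        exact ⟨e, (Finset.mem_filter.mp he).2, hep⟩
      have hpc : PC E (F k) := by
        refine hNF k hk E ?_ ?_
        · intro p hp
          obtain ⟨e, he, rfl⟩ := hEmem p hp
          exact hνm he.1
        · intro W hW hWc
          by_contra hbad
          obtain ⟨P, hP, hPc⟩ := exists_pattern G ν hνm W (fun p hp => hEmem p (hW hp)) k hk hbad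
          refine hav P ⟨?_, hP.2⟩ hPc
          have := hP.1
          omega
      have hlay : MixedLayout G (F k) := layout_of_pc G ν hνm E (by
        intro e he
        rw [hE]
        exact Finset.mem_image_of_mem _ (Finset.mem_filter.mpr ⟨Finset.mem_univ _, he⟩)) _ hpc
      exact Nat.lt_succ_of_le (mn_le G hlay)
    · rintro ⟨H, hH, hcont⟩
      exact le_trans hH.2 (mn_le_of_contains G H hcont)

end Pool.Agent.Results.MP_42bdc2_co.FiniteObstructions
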